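import Pool.Agent.Helper62.UG.Local

/-!
The theorem for squarefree polynomials of degree at most nine.
-/

set_option autoImplicit false

namespace Pool.Agent.Helper62.UG

open Module Polynomial

variable {K : Type*} [Field K]

/-- Congruent modulo `f0` to an element of the group. -/
def Rel (f f0 h : K[X]) : Prop := ∃ g1 g2, Gen f g1 ∧ Gen f g2 ∧ f0 ∣ h * g1 - g2

theorem Rel.mul {f f0 h h' : K[X]} (H : Rel f f0 h) (H' : Rel f f0 h') : Rel f f0 (h * h') := by
  obtain ⟨g1, g2, hg1, hg2, u, hu⟩ := H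
  obtain ⟨g1', g2', hg1', hg2', u', hu'⟩ := H'
  refine ⟨g1 * g1', g2 * g2', hg1.mul hg1', hg2.mul hg2', u * h' * g1' + g2 * u', ?_⟩
  linear_combination h' * g1' * hu + g2 * hu'

theorem Rel.of_gen {f f0 h : K[X]} (H : Gen f h) : Rel f f0 h := by
  refine ⟨1, h, ?_, H, ?_⟩
  · rw [← C_1]
    exact gen_C one_ne_zero
  · rw [mul_one, sub_self]
    exact dvd_zero _

theorem Rel.quot {f f0 g S R : K[X]} (H : Rel f f0 S) (H' : Rel f f0 R) (h : f0 ∣ g * S - R) :
    Rel f f0 g := by
  obtain ⟨g1, g2, hg1, hg2, u, hu⟩ := H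
  obtain ⟨g1', g2', hg1', hg2', u', hu'⟩ := H'
  obtain ⟨v, hv⟩ := h
  refine ⟨g2 * g1', g2' * g1, hg2.mul hg1', hg2'.mul hg1,
    v * g1 * g1' - g * u * g1' + u' * g1, ?_⟩
  linear_combination (-g * g1') * hu + g1 * hu' + g1 * g1' * hv

/-- The linear factors which divide `f`. -/
theorem rel_root [Infinite K] (hr : ∀ d : ℕ, 1 ≤ d → d ≤ 4 → Helper65.PAC.Rt K d)
    {f f0 : K[X]} (hf : f ≠ 0) (hf0 : f0.natDegree ≤ 8) {t t' : K} (ht : f.eval t ≠ 0)
    (ht' : f.eval t' ≠ 0) (hne : t ≠ t') {a : K} (ha : f.eval a = 0) (h0a : f0.eval a ≠ 0) :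
    Rel f f0 (X - C a) := by
  classical
  have hat : a ≠ t := by
    rintro rfl
    exact ht ha
  have hat' : a ≠ t' := by
    rintro rfl
    exact ht' ha
  obtain ⟨A, hA⟩ : ∃ A : K[X], A = (X - C a) * (X - C t) ^ 3 := ⟨_, rfl⟩
  obtain ⟨B, hB⟩ : ∃ B : K[X], B = (X - C t') ^ 4 := ⟨_, rfl⟩
  have hX : ∀ b : K, (X - C b : K[X]) ≠ 0 := X_sub_C_ne_zero
  have hA0 : A ≠ 0 := by rw [hA]; exact mul_ne_zero (hX a) (pow_ne_zero _ (hX t))
  have hB0 : B ≠ 0 := by rw [hB]; exact pow_ne_zero _ (hX t')
  have hAd : A.natDegree = 4 := by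
    rw [hA, natDegree_mul (hX a) (pow_ne_zero _ (hX t)), natDegree_pow, natDegree_X_sub_C,
      natDegree_X_sub_C]
  have hBd : B.natDegree = 4 := by rw [hB]; exact deg_pow t'
  have hBm : B.Monic := by rw [hB]; exact (monic_X_sub_C t').pow 4
  have hAm : A.Monic := by rw [hA]; exact (monic_X_sub_C a).mul ((monic_X_sub_C t).pow 3)
  have hcop : IsCoprime A B := by
    rw [hA, hB]
    refine IsCoprime.pow_right (IsCoprime.mul_left ?_ (IsCoprime.pow_left ?_))
    · exact isCoprime_X_sub_C_of_isUnit_sub (sub_ne_zero.mpr hat').isUnit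
    · exact isCoprime_X_sub_C_of_isUnit_sub (sub_ne_zero.mpr hne).isUnit
  -- a solution of `A S - B R = f0`
  obtain ⟨S, R, hS, hR, hSR⟩ : ∃ S R : K[X], S.natDegree ≤ 4 ∧ R.natDegree ≤ 4 ∧
      A * S - B * R = f0 := by
    obtain ⟨x, y, hxy⟩ := hcop
    -- x * A + y * B = 1
    have hSm : ((f0 * x) %ₘ B).natDegree ≤ 3 := by
      have h := natDegree_modByMonic_lt (f0 * x) hBm (by
        intro h1
        rw [h1] at hBd
        simp at hBd)
      omega
    have hdiv := modByMonic_add_div (f0 * x) B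
    refine ⟨(f0 * x) %ₘ B, -(f0 * y + A * ((f0 * x) /ₘ B)), by omega, ?_, ?_⟩
    · -- degree
      have heq : B * (f0 * y + A * ((f0 * x) /ₘ B)) = f0 - A * ((f0 * x) %ₘ B) := by
        linear_combination f0 * hxy + A * hdiv
      by_cases h0 : f0 * y + A * ((f0 * x) /ₘ B) = 0
      · rw [h0]; simp
      · rw [natDegree_neg]
        have h1 := natDegree_mul hB0 h0
        have h2 : (f0 - A * ((f0 * x) %ₘ B)).natDegree ≤ 8 := by
          refine (natDegree_sub_le _ _).trans (max_le hf0 ?_)
          exact natDegree_mul_le.trans (by omega)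
        rw [heq, hBd] at h1
        omega
    · linear_combination f0 * hxy + A * hdiv
  have hBev : ∀ b, f.eval b = 0 → B.eval b ≠ 0 := by
    intro b hb
    rw [hB]
    apply eval_sub_pow
    rintro rfl
    exact ht' hb
  have hAev : ∀ b, f.eval b = 0 → b ≠ a → A.eval b ≠ 0 := by
    intro b hb hba
    rw [hA, eval_mul, eval_pow, eval_sub, eval_sub, eval_X, eval_C, eval_C]
    refine mul_ne_zero (sub_ne_zero.mpr hba) (pow_ne_zero _ (sub_ne_zero.mpr ?_))
    rintro rfl
    exact ht hb
  have hRa : R.eval a ≠ 0 := by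
    intro h
    have h1 := congrArg (eval a) hSR
    rw [eval_sub, eval_mul, eval_mul, h, mul_zero, sub_zero, hA, eval_mul, eval_sub, eval_X, eval_C,
      sub_self, zero_mul, zero_mul] at h1
    exact h0a h1.symm
  -- choice of the constant
  have hfin : (⋃ b ∈ (f.roots.toFinset : Set K),
      ({α : K | α * B.eval b + S.eval b = 0 ∧ B.eval b ≠ 0} ∪
        {α : K | α * A.eval b + R.eval b = 0 ∧ A.eval b ≠ 0})).Finite := by
    refine Set.Finite.biUnion (Finset.finite_toSet _) fun b _ => Set.Finite.union ?_ ?_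
    · refine Set.Subsingleton.finite ?_
      rintro α ⟨h1, h2⟩ α' ⟨h3, _⟩
      have h4 : (α - α') * B.eval b = 0 := by linear_combination h1 - h3
      exact sub_eq_zero.mp ((mul_eq_zero.mp h4).resolve_right h2)
    · refine Set.Subsingleton.finite ?_
      rintro α ⟨h1, h2⟩ α' ⟨h3, _⟩
      have h4 : (α - α') * A.eval b = 0 := by linear_combination h1 - h3
      exact sub_eq_zero.mp ((mul_eq_zero.mp h4).resolve_right h2)
  obtain ⟨α, hα⟩ := hfin.exists_notMem
  have hα' : ∀ b, f.eval b = 0 → α * B.eval b + S.eval b ≠ 0 ∧ α * A.eval b + R.eval b ≠ 0 := by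
    intro b hb
    have hmem : b ∈ (f.roots.toFinset : Set K) := by
      rw [Finset.mem_coe, Multiset.mem_toFinset, mem_roots hf]
      exact hb
    rw [Set.mem_iUnion₂] at hα
    refine ⟨fun h => hα ⟨b, hmem, Or.inl ⟨h, hBev b hb⟩⟩, fun h => ?_⟩
    by_cases hba : b = a
    · subst hba
      have hA1 : A.eval b = 0 := by
        rw [hA]
        simp
      rw [hA1, mul_zero, zero_add] at h
      exact hRa h
    · exact hα ⟨b, hmem, Or.inr ⟨h, hAev b hb hba⟩⟩
  have hfa := hα' a ha
  have hS1 : ∀ b, f.eval b = 0 → (C α * B + S).eval b ≠ 0 := by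
    intro b hb
    rw [eval_add, eval_mul, eval_C]
    exact (hα' b hb).1
  have hR1 : ∀ b, f.eval b = 0 → (C α * A + R).eval b ≠ 0 := by
    intro b hb
    rw [eval_add, eval_mul, eval_C]
    exact (hα' b hb).2
  have g1 : Gen f (C α * B + S) := by
    refine gen_small hr ?_ ?_ hS1
    · intro h
      apply hS1 a ha
      rw [h, eval_zero]
    · refine (natDegree_add_le _ _).trans (max_le ?_ hS)
      exact (natDegree_C_mul_le _ _).trans hBd.le
  have g2 : Gen f (C α * A + R) := by
    refine gen_small hr ?_ ?_ hR1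
    · intro h
      apply hR1 a ha
      rw [h, eval_zero]
    · refine (natDegree_add_le _ _).trans (max_le ?_ hR)
      exact (natDegree_C_mul_le _ _).trans hAd.le
  refine ⟨(X - C t) ^ 3 * (C α * B + S), (X - C t') ^ 4 * (C α * A + R),
    (gen_pow ht 3).mul g1, (gen_pow ht' 4).mul g2, ?_⟩
  refine ⟨1, ?_⟩
  rw [← hSR, ← hB, hA]
  ring

/-- Every polynomial is congruent modulo `f0` to an element of the group. -/
theorem rel_all [Infinite K] (hr : ∀ d : ℕ, 1 ≤ d → d ≤ 4 → Helper65.PAC.Rt K d)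
    {f f0 : K[X]} (hf : f ≠ 0) (hfd : f.natDegree ≤ 9) (h0 : f0 ∣ f) (hroot : ∀ a, f0.eval a ≠ 0)
    {t t' : K} (ht : f.eval t ≠ 0) (ht' : f.eval t' ≠ 0) (hne : t ≠ t') (g : K[X])
    (hg : IsCoprime g f) : Rel f f0 g := by
  have h00 : f0 ≠ 0 := ne_zero_of_dvd_ne_zero hf h0
  by_cases hunit : IsUnit f0
  · refine ⟨1, 1, ?_, ?_, hunit.dvd⟩
    · rw [← C_1]
      exact gen_C one_ne_zero
    · rw [← C_1]
      exact gen_C one_ne_zero
  have hlin : ∀ s : K, Rel f f0 (X - C s) := by
    intro s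
    by_cases hs : f.eval s = 0
    · refine rel_root hr hf ?_ ht ht' hne hs (hroot s)
      -- degree of `f0`
      obtain ⟨q, hq⟩ := h0
      have hq0 : q ≠ 0 := by
        rintro rfl
        exact hf (by rw [hq, mul_zero])
      have hqs : q.eval s = 0 := by
        rw [hq, eval_mul] at hs
        exact (mul_eq_zero.mp hs).resolve_left (hroot s)
      have hqd : 1 ≤ q.natDegree := by
        by_contra hlt
        have h1 : q.natDegree = 0 := by omega
        rw [eq_C_of_natDegree_eq_zero h1, eval_C] at hqs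
        apply hq0
        rw [eq_C_of_natDegree_eq_zero h1, hqs, C_0]
      have h2 := natDegree_mul h00 hq0
      rw [← hq] at h2
      omega
    · exact Rel.of_gen (gen_X_sub hs)
  have hprod : ∀ s : Multiset K, Rel f f0 (s.map (fun a => X - C a)).prod := by
    intro s
    induction s using Multiset.induction_on with
    | empty =>
      rw [Multiset.map_zero, Multiset.prod_zero, ← C_1]
      exact Rel.of_gen (gen_C one_ne_zero)
    | cons a s ih =>
      rw [Multiset.map_cons, Multiset.prod_cons]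
      exact (hlin a).mul ih
  have hsmall : ∀ P : K[X], P ≠ 0 → P.natDegree ≤ 4 → Rel f f0 P := by
    intro P hP hPd
    obtain ⟨c, s, hc, -, he⟩ := split_four hr 4 le_rfl P hP hPd
    rw [he]
    exact (Rel.of_gen (gen_C hc)).mul (hprod s)
  -- small polynomials are coprime to `f0`
  have hcop : ∀ P : K[X], P ≠ 0 → P.natDegree ≤ 4 → IsCoprime f0 P := by
    intro P hP hPd
    obtain ⟨c, s, hc, -, he⟩ := split_four hr 4 le_rfl P hP hPd
    rw [he]
    refine IsCoprime.mul_right ?_ ?_
    · exact (isCoprime_one_right (x := f0)).of_isCoprime_of_dvd_right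
        ((isUnit_C.mpr hc.isUnit).dvd)
    · clear he
      induction s using Multiset.induction_on with
      | empty =>
        rw [Multiset.map_zero, Multiset.prod_zero]
        exact isCoprime_one_right
      | cons a s ih =>
        rw [Multiset.map_cons, Multiset.prod_cons]
        refine IsCoprime.mul_right ?_ ih
        refine ((Polynomial.irreducible_X_sub_C a).coprime_iff_not_dvd.mpr ?_).symm
        intro h
        exact hroot a (dvd_iff_isRoot.mp h)
  obtain ⟨q, hq⟩ := h0
  have hq0 : q ≠ 0 := by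
    rintro rfl
    exact hf (by rw [hq, mul_zero])
  have hd0 : f0.natDegree ≤ 9 := by
    have h2 := natDegree_mul h00 hq0
    rw [← hq] at h2
    omega
  obtain ⟨S, R, hS, hR, hneq, hdvd⟩ := pade f0 g 1 h00 hd0
  rw [one_mul] at hdvd
  have hgf0 : IsCoprime f0 g := (hg.of_isCoprime_of_dvd_right ⟨q, hq⟩).symm
  have hS0 : S ≠ 0 := by
    rintro rfl
    have hR0 : R ≠ 0 := by
      rcases hneq with h | h
      · exact absurd rfl h
      · exact h
    rw [mul_zero, zero_sub, dvd_neg] at hdvd
    exact hunit ((hcop R hR0 hR).isUnit_of_dvd' dvd_rfl hdvd)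
  have hR0 : R ≠ 0 := by
    rintro rfl
    rw [sub_zero] at hdvd
    have h1 : f0 ∣ S := hgf0.dvd_of_dvd_mul_left hdvd
    exact hunit ((hcop S hS0 hS).isUnit_of_dvd' dvd_rfl h1)
  exact Rel.quot (hsmall S hS0 hS) (hsmall R hR0 hR) hdvd

/-- The theorem for degree exactly nine. -/
theorem gen_nine [Infinite K] (hr : ∀ d : ℕ, 1 ≤ d → d ≤ 4 → Helper65.PAC.Rt K d)
    {f : K[X]} (hsq : Squarefree f) (hfd : f.natDegree = 9) {g : K[X]} (hg : IsCoprime g f) :
    Gen f g := by
  classical
  have hf : f ≠ 0 := hsq.ne_zero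
  -- two auxiliary points
  obtain ⟨t, ht⟩ : ∃ t : K, f.eval t ≠ 0 := by
    by_contra h
    push Not at h
    exact hf (Polynomial.funext (fun r => by rw [h r, eval_zero]))
  obtain ⟨t', ht', hne⟩ : ∃ t' : K, f.eval t' ≠ 0 ∧ t ≠ t' := by
    by_contra h
    push Not at h
    have h2 : f * (X - C t) = 0 := by
      refine Polynomial.funext (fun r => ?_)
      rw [eval_mul, eval_zero, eval_sub, eval_X, eval_C]
      by_cases hr0 : f.eval r = 0
      · rw [hr0, zero_mul]
      · rw [← h r hr0, sub_self, mul_zero]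
    exact (mul_ne_zero hf (X_sub_C_ne_zero t)) h2
  -- factorization
  obtain ⟨f0, hprod, -, hroots⟩ := exists_prod_multiset_X_sub_C_mul f
  have hf00 : f0 ≠ 0 := by
    rintro rfl
    rw [mul_zero] at hprod
    exact hf hprod.symm
  have hroot : ∀ a, f0.eval a ≠ 0 := by
    intro a ha
    have h1 : a ∈ f0.roots := (mem_roots hf00).mpr ha
    rw [hroots] at h1
    exact absurd h1 (Multiset.notMem_zero a)
  have hsimple : ∀ (a : K) (f1 : K[X]), f = (X - C a) * f1 → f1.eval a ≠ 0 := by
    intro a f1 h h1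
    obtain ⟨q, hq⟩ := dvd_iff_isRoot.mpr (show f1.IsRoot a from h1)
    have h2 : (X - C a) * (X - C a) ∣ f := ⟨q, by rw [h, hq]; ring⟩
    exact Polynomial.not_isUnit_X_sub_C a (hsq _ h2)
  have hnd : f.roots.Nodup := by
    rw [Multiset.nodup_iff_count_le_one]
    intro a
    rw [count_roots]
    by_contra hlt
    push Not at hlt
    have h2 : (X - C a) ^ 2 ∣ f := (le_rootMultiplicity_iff hf).mp hlt
    rw [pow_two] at h2
    exact Polynomial.not_isUnit_X_sub_C a (hsq _ h2)
  have hprodf : (∏ a ∈ f.roots.toFinset, (X - C a)) * f0 = f := by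
    have h2 : (∏ a ∈ f.roots.toFinset, (X - C a)) = (f.roots.map (fun a => X - C a)).prod := by
      rw [Finset.prod, Multiset.toFinset_val, hnd.dedup]
    rw [h2]
    exact hprod
  have h0dvd : f0 ∣ f := ⟨∏ a ∈ f.roots.toFinset, (X - C a), by rw [mul_comm]; exact hprodf.symm⟩
  have key : ∀ T : Finset K, T ⊆ f.roots.toFinset → Rel f ((∏ a ∈ T, (X - C a)) * f0) g := by
    intro T
    induction T using Finset.induction_on with
    | empty =>
      intro _
      rw [Finset.prod_empty, one_mul]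
      exact rel_all hr hf (by omega) h0dvd hroot ht ht' hne g hg
    | insert a1 T ha1 ih =>
      intro hT
      obtain ⟨g1, g2, hg1, hg2, hdvd⟩ := ih ((Finset.subset_insert a1 T).trans hT)
      have hmem : a1 ∈ f.roots.toFinset := hT (Finset.mem_insert_self a1 T)
      have hfa1 : f.eval a1 = 0 := by
        rw [Multiset.mem_toFinset, mem_roots hf] at hmem
        exact hmem
      obtain ⟨f1, hf1, -⟩ := root_factor hfa1
      have hf10 : f1 ≠ 0 := by
        rintro rfl
        exact hf (by rw [hf1, mul_zero])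
      have hf1d : f1.natDegree = 8 := by
        have h2 := natDegree_mul (X_sub_C_ne_zero a1) hf10
        rw [← hf1, natDegree_X_sub_C] at h2
        omega
      have hf1a := hsimple a1 f1 hf1
      have hT1 : (∏ a ∈ T, (X - C a)) * f0 ∣ f1 := by
        have h2 : (∏ a ∈ insert a1 T, (X - C a)) * f0 ∣ f := by
          rw [← hprodf]
          exact mul_dvd_mul_right (Finset.prod_dvd_prod_of_subset _ _ _ hT) f0
        rw [Finset.prod_insert ha1, mul_assoc, hf1] at h2
        exact (mul_dvd_mul_iff_left (X_sub_C_ne_zero a1)).mp h2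
      have H : Dat f f1 a1 t t' := ⟨hf1, hf1d, hf1a, ht, ht', hne⟩
      have hga1 : g.eval a1 ≠ 0 := by
        intro h
        obtain ⟨x, y, hxy⟩ := hg
        have h2 := congrArg (eval a1) hxy
        rw [eval_add, eval_mul, eval_mul, h, hfa1, mul_zero, mul_zero, add_zero, eval_one] at h2
        exact zero_ne_one h2
      have hg1a := hg1.eval_ne hfa1
      have hg2a := hg2.eval_ne hfa1
      obtain ⟨η, hη⟩ : ∃ η : K, η = g.eval a1 * g1.eval a1 / g2.eval a1 := ⟨_, rfl⟩
      have hη0 : η ≠ 0 := by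
        rw [hη]
        exact div_ne_zero (mul_ne_zero hga1 hg1a) hg2a
      obtain ⟨u, hu⟩ : ∃ u : K[X], u = 1 + C ((η - 1) / f1.eval a1) * f1 := ⟨_, rfl⟩
      have hua : u.eval a1 = η := by
        rw [hu, eval_add, eval_mul, eval_C, eval_one]
        field_simp
        ring
      have hu1 : f1 ∣ u - 1 := ⟨C ((η - 1) / f1.eval a1), by rw [hu]; ring⟩
      have hgu : Gen f u := local_unit hr H hu1 (by rw [hua]; exact hη0)
      refine ⟨g1, g2 * u, hg1, hg2.mul hgu, ?_⟩
      rw [Finset.prod_insert ha1, mul_assoc]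
      refine IsCoprime.mul_dvd ?_ ?_ ?_
      · refine (Polynomial.irreducible_X_sub_C a1).coprime_iff_not_dvd.mpr ?_
        intro h
        exact hf1a (dvd_iff_isRoot.mp (h.trans hT1))
      · rw [dvd_iff_isRoot, IsRoot.def, eval_sub, eval_mul, eval_mul, hua, hη]
        field_simp
        ring
      · have h5 : g * g1 - g2 * u = (g * g1 - g2) - g2 * (u - 1) := by ring
        rw [h5]
        exact dvd_sub hdvd ((hT1.trans hu1).mul_left _)
  obtain ⟨g1, g2, hg1, hg2, hdvd⟩ := key _ (Finset.Subset.refl _)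
  rw [hprodf] at hdvd
  refine Gen.quot hg1 hg2 ?_
  rw [mul_comm]
  exact hdvd

/-- The theorem for squarefree polynomials of degree at most nine. -/
theorem gen_all [Infinite K] (hr : ∀ d : ℕ, 1 ≤ d → d ≤ 4 → Helper65.PAC.Rt K d) :
    ∀ (n : ℕ) (f : K[X]), Squarefree f → f.natDegree + n = 9 → ∀ g : K[X], IsCoprime g f →
      Gen f g := by
  intro n
  induction n with
  | zero =>
    intro f hsq hfd g hg
    exact gen_nine hr hsq (by omega) hg
  | succ n ih =>
    intro f hsq hfd g hg
    have hf : f ≠ 0 := hsq.ne_zero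
    obtain ⟨b, hb⟩ : ∃ b : K, f.eval b ≠ 0 := by
      by_contra h
      push Not at h
      exact hf (Polynomial.funext (fun r => by rw [h r, eval_zero]))
    have hcop : IsCoprime f (X - C b) := by
      refine ((Polynomial.irreducible_X_sub_C b).coprime_iff_not_dvd.mpr ?_).symm
      intro h
      exact hb (dvd_iff_isRoot.mp h)
    -- a congruent element which does not vanish at `b`
    obtain ⟨c, hc⟩ : ∃ c : K, (g + C c * f).eval b ≠ 0 := by
      by_cases h0 : g.eval b = 0
      · refine ⟨1, ?_⟩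
        rw [eval_add, eval_mul, h0, eval_C, one_mul, zero_add]
        exact hb
      · exact ⟨0, by rw [C_0, zero_mul, add_zero]; exact h0⟩
    have hsq' : Squarefree (f * (X - C b)) := by
      rw [squarefree_mul_iff]
      exact ⟨hcop.isRelPrime, hsq, (Polynomial.irreducible_X_sub_C b).squarefree⟩
    have hd' : (f * (X - C b)).natDegree + n = 9 := by
      rw [natDegree_mul hf (X_sub_C_ne_zero b), natDegree_X_sub_C]
      omega
    have hg' : IsCoprime (g + C c * f) (f * (X - C b)) := by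
      refine IsCoprime.mul_right ?_ ?_
      · have h1 := IsCoprime.add_mul_right_left hg (C c)
        exact h1
      · refine ((Polynomial.irreducible_X_sub_C b).coprime_iff_not_dvd.mpr ?_).symm
        intro h
        exact hc (dvd_iff_isRoot.mp h)
    obtain ⟨c', r, s, hc', hr', hs', u, hu⟩ := ih _ hsq' hd' _ hg'
    have hne : ∀ a, (f * (X - C b)).eval a ≠ 0 → f.eval a ≠ 0 := by
      intro a ha h
      apply ha
      rw [eval_mul, h, zero_mul]
    refine ⟨c', r, s, hc', fun a ha => hne a (hr' a ha), fun a ha => hne a (hs' a ha),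
      (X - C b) * u - C c * Pr s, ?_⟩
    linear_combination hu

/-- The irreducible case, with at most four factors in the numerator and the denominator. -/
theorem gen_irred (hr : ∀ d : ℕ, 1 ≤ d → d ≤ 4 → Helper65.PAC.Rt K d)
    {f : K[X]} (hirr : Irreducible f) (hfd : f.natDegree ≤ 9) {g : K[X]} (hg : IsCoprime g f) :
    ∃ (c : K) (r s : Multiset K), c ≠ 0 ∧ (∀ a ∈ r, f.eval a ≠ 0) ∧ (∀ a ∈ s, f.eval a ≠ 0) ∧
      f ∣ g * Pr s - C c * Pr r ∧ Multiset.card r ≤ 4 ∧ Multiset.card s ≤ 4 := by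
  have hf : f ≠ 0 := hirr.ne_zero
  by_cases hroot : ∃ a, f.eval a = 0
  · obtain ⟨a, ha⟩ := hroot
    have hdvd : X - C a ∣ f := dvd_iff_isRoot.mpr ha
    have hass : Associated (X - C a) f :=
      (Polynomial.irreducible_X_sub_C a).associated_of_dvd hirr hdvd
    have hga : g.eval a ≠ 0 := by
      intro h
      obtain ⟨x, y, hxy⟩ := hg
      have h2 := congrArg (eval a) hxy
      rw [eval_add, eval_mul, eval_mul, h, ha, mul_zero, mul_zero, add_zero, eval_one] at h2
      exact zero_ne_one h2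
    refine ⟨g.eval a, 0, 0, hga, by simp, by simp, ?_, by simp, by simp⟩
    have h3 : X - C a ∣ g * Pr 0 - C (g.eval a) * Pr 0 := by
      rw [dvd_iff_isRoot, IsRoot.def]
      simp [Pr]
    exact hass.symm.dvd.trans h3
  · push Not at hroot
    have hcop : ∀ P : K[X], P ≠ 0 → P.natDegree ≤ 4 → ¬ f ∣ P := by
      intro P hP hPd hdvd
      obtain ⟨c, s, hc, -, he⟩ := split_four hr 4 le_rfl P hP hPd
      have hpr : Prime f := hirr.prime
      rw [he] at hdvd
      rcases hpr.dvd_or_dvd hdvd with h | h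
      · exact hpr.not_unit (isUnit_of_dvd_unit h (isUnit_C.mpr hc.isUnit))
      · rcases Multiset.mem_map.mp (hpr.exists_mem_multiset_dvd h).choose_spec.1 with ⟨a, -, ha⟩
        have h2 := (hpr.exists_mem_multiset_dvd h).choose_spec.2
        rw [← ha] at h2
        have h3 := (hirr.associated_of_dvd (Polynomial.irreducible_X_sub_C a) h2).symm.dvd
        exact hroot a (dvd_iff_isRoot.mp h3)
    obtain ⟨S, R, hS, hR, hneq, hdvd⟩ := pade f g 1 hf hfd
    rw [one_mul] at hdvd
    have hS0 : S ≠ 0 := by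
      rintro rfl
      have hR0 : R ≠ 0 := by
        rcases hneq with h | h
        · exact absurd rfl h
        · exact h
      rw [mul_zero, zero_sub, dvd_neg] at hdvd
      exact hcop R hR0 hR hdvd
    have hR0 : R ≠ 0 := by
      rintro rfl
      rw [sub_zero] at hdvd
      exact hcop S hS0 hS (hg.symm.dvd_of_dvd_mul_left hdvd)
    obtain ⟨c, s, hc, hcs, hes⟩ := split_four hr 4 le_rfl S hS0 hS
    obtain ⟨d, r, hd, hcr, her⟩ := split_four hr 4 le_rfl R hR0 hR
    refine ⟨d / c, r, s, div_ne_zero hd hc, fun a _ => hroot a, fun a _ => hroot a, ?_, hcr, hcs⟩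
    obtain ⟨q, hq⟩ := hdvd
    refine ⟨C c⁻¹ * q, ?_⟩
    have hC : (C c⁻¹ : K[X]) * C c = 1 := by
      rw [← C_mul, inv_mul_cancel₀ hc, C_1]
    have hC2 : (C (d / c) : K[X]) = C c⁻¹ * C d := by
      rw [← C_mul, div_eq_inv_mul]
    have hes' : S = C c * Pr s := hes
    have her' : R = C d * Pr r := her
    rw [hC2]
    rw [hes', her'] at hq
    linear_combination C c⁻¹ * hq - g * Pr s * hC

end Pool.Agent.Helper62.UG
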