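import Pool.Agent.Helper62.UG.Units

/-!
Multiplicative generators of the algebras `K[x]/(f)`, `f` squarefree of degree at most nine, `K` an infinite
field in which every polynomial of degree one to four has a root.
-/

set_option autoImplicit false

namespace Pool.Agent.Helper62.UG

open Module Polynomial

variable {K : Type*} [Field K]

/-- The product of the linear factors `X - a`. -/
noncomputable def Pr (s : Multiset K) : K[X] := (s.map (fun a => X - C a)).prod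

theorem Pr_add (s t : Multiset K) : Pr (s + t) = Pr s * Pr t := by
  unfold Pr
  rw [Multiset.map_add, Multiset.prod_add]

/-- The class of `g` modulo `f` is in the group generated by the constants and the units `X - a`. -/
def Gen (f g : K[X]) : Prop :=
  ∃ (c : K) (r s : Multiset K), c ≠ 0 ∧ (∀ a ∈ r, f.eval a ≠ 0) ∧ (∀ a ∈ s, f.eval a ≠ 0) ∧
    f ∣ g * Pr s - C c * Pr r

theorem mem_add' {f : K[X]} {r s : Multiset K} (hr : ∀ a ∈ r, f.eval a ≠ 0)
    (hs : ∀ a ∈ s, f.eval a ≠ 0) : ∀ a ∈ r + s, f.eval a ≠ 0 := by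
  intro a ha
  rcases Multiset.mem_add.mp ha with h | h
  · exact hr a h
  · exact hs a h

theorem Gen.mul {f g h : K[X]} (h1 : Gen f g) (h2 : Gen f h) : Gen f (g * h) := by
  obtain ⟨c, r, s, hc, hr, hs, u, hu⟩ := h1
  obtain ⟨c', r', s', hc', hr', hs', u', hu'⟩ := h2
  refine ⟨c * c', r + r', s + s', mul_ne_zero hc hc', mem_add' hr hr', mem_add' hs hs',
    u * (h * Pr s') + C c * Pr r * u', ?_⟩
  rw [Pr_add, Pr_add, C_mul]
  linear_combination (h * Pr s') * hu + C c * Pr r * hu'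

theorem Gen.quot {f g g' h : K[X]} (h1 : Gen f g) (h2 : Gen f g') (h3 : f ∣ g * h - g') :
    Gen f h := by
  obtain ⟨c, r, s, hc, hr, hs, u, hu⟩ := h1
  obtain ⟨c', r', s', hc', hr', hs', u', hu'⟩ := h2
  obtain ⟨u'', hu''⟩ := h3
  refine ⟨c' / c, r' + s, r + s', div_ne_zero hc' hc, mem_add' hr' hs, mem_add' hr hs',
    C c⁻¹ * (Pr s * Pr s' * u'' - u * h * Pr s' + u' * Pr s), ?_⟩
  have hC : (C c⁻¹ : K[X]) * C c = 1 := by
    rw [← C_mul, inv_mul_cancel₀ hc, C_1]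
  have hC2 : (C (c' / c) : K[X]) = C c⁻¹ * C c' := by
    rw [← C_mul, div_eq_inv_mul]
  rw [Pr_add, Pr_add, hC2]
  linear_combination (-h * Pr r * Pr s') * hC - C c⁻¹ * h * Pr s' * hu + C c⁻¹ * Pr s * hu'
    + C c⁻¹ * Pr s * Pr s' * hu''

theorem Gen.congr {f g h : K[X]} (h1 : Gen f g) (h2 : f ∣ g - h) : Gen f h := by
  obtain ⟨c, r, s, hc, hr, hs, u, hu⟩ := h1
  obtain ⟨v, hv⟩ := h2
  refine ⟨c, r, s, hc, hr, hs, u - v * Pr s, ?_⟩
  linear_combination hu - Pr s * hv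

theorem Pr_eval_ne {f : K[X]} {s : Multiset K} (hs : ∀ a ∈ s, f.eval a ≠ 0) {b : K}
    (hb : f.eval b = 0) : (Pr s).eval b ≠ 0 := by
  unfold Pr
  rw [eval_multiset_prod]
  intro h
  rw [Multiset.prod_eq_zero_iff, Multiset.map_map, Multiset.mem_map] at h
  obtain ⟨a, ha, he⟩ := h
  have he' : b - a = 0 := by simpa using he
  rw [sub_eq_zero] at he'
  exact hs a ha (he' ▸ hb)

theorem Gen.eval_ne {f g : K[X]} (h1 : Gen f g) {b : K} (hb : f.eval b = 0) : g.eval b ≠ 0 := by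
  obtain ⟨c, r, s, hc, hr, hs, u, hu⟩ := h1
  intro h
  have h2 := congrArg (eval b) hu
  rw [eval_sub, eval_mul, h, eval_mul, eval_mul, hb, eval_C, zero_mul, zero_mul, zero_sub,
    neg_eq_zero] at h2
  exact (mul_ne_zero hc (Pr_eval_ne hr hb)) h2

theorem gen_small (hr : ∀ d : ℕ, 1 ≤ d → d ≤ 4 → Helper65.PAC.Rt K d) {f P : K[X]} (hP0 : P ≠ 0)
    (hP : P.natDegree ≤ 4) (hz : ∀ a, f.eval a = 0 → P.eval a ≠ 0) : Gen f P := by
  obtain ⟨c, s, hc, hs, he⟩ := split_four hr 4 le_rfl P hP0 hP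
  refine ⟨c, s, 0, hc, ?_, by simp, 0, ?_⟩
  · intro a ha hfa
    apply hz a hfa
    obtain ⟨t, rfl⟩ := Multiset.exists_cons_of_mem ha
    rw [he]
    simp
  · rw [he]
    simp [Pr]

theorem gen_X_sub {f : K[X]} {a : K} (ha : f.eval a ≠ 0) : Gen f (X - C a) := by
  refine ⟨1, {a}, 0, one_ne_zero, ?_, by simp, 0, ?_⟩
  · intro b hb
    rw [Multiset.mem_singleton] at hb
    rw [hb]
    exact ha
  · simp [Pr]

theorem gen_C {f : K[X]} {c : K} (hc : c ≠ 0) : Gen f (C c) := by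
  refine ⟨c, 0, 0, hc, by simp, by simp, 0, ?_⟩
  simp [Pr]

theorem gen_pow {f : K[X]} {a : K} (ha : f.eval a ≠ 0) (n : ℕ) : Gen f ((X - C a) ^ n) := by
  induction n with
  | zero =>
    rw [pow_zero, ← C_1]
    exact gen_C one_ne_zero
  | succ n ih =>
    rw [pow_succ]
    exact ih.mul (gen_X_sub ha)

theorem natDegree_pair (p : degreeLT K 5) : ((p : K[X])).natDegree ≤ 4 := by
  have h := mem_degreeLT.mp p.2
  by_cases h0 : (p : K[X]) = 0
  · rw [h0]; simp
  · have h2 := (natDegree_lt_iff_degree_lt h0).mpr h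
    omega

/-- Nine linear conditions on a pair of polynomials of degree at most four. -/
theorem pade (F D B : K[X]) (hF : F ≠ 0) (hd : F.natDegree ≤ 9) :
    ∃ S R : K[X], S.natDegree ≤ 4 ∧ R.natDegree ≤ 4 ∧ (S ≠ 0 ∨ R ≠ 0) ∧ F ∣ D * S - B * R := by
  have hfin : Module.Finite K (degreeLT K 5) := Module.Finite.equiv (degreeLTEquiv K 5).symm
  obtain ⟨f, hf⟩ : ∃ f : (degreeLT K 5 × degreeLT K 5) →ₗ[K] AdjoinRoot F,
      ∀ p : degreeLT K 5 × degreeLT K 5,
      f p = AdjoinRoot.mk F (D * (p.1 : K[X]) - B * (p.2 : K[X])) := by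
    refine ⟨(AdjoinRoot.mkₐ F).toLinearMap ∘ₗ
      (((LinearMap.mulLeft K D) ∘ₗ (degreeLT K 5).subtype ∘ₗ LinearMap.fst K _ _) -
       ((LinearMap.mulLeft K B) ∘ₗ (degreeLT K 5).subtype ∘ₗ LinearMap.snd K _ _)), ?_⟩
    intro p
    simp
  have hL : finrank K (AdjoinRoot F) = F.natDegree := by
    rw [(AdjoinRoot.powerBasis hF).finrank, AdjoinRoot.powerBasis_dim]
  have hfr : finrank K (AdjoinRoot F) < finrank K (degreeLT K 5 × degreeLT K 5) := by
    have h5 : finrank K (degreeLT K 5) = 5 := by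
      rw [(degreeLTEquiv K 5).finrank_eq]
      simp
    rw [finrank_prod, h5, hL]
    omega
  have : Module.Finite K (AdjoinRoot F) := (AdjoinRoot.powerBasis hF).finite
  have hk := LinearMap.ker_ne_bot_of_finrank_lt (f := f) hfr
  obtain ⟨p, hp, hp0⟩ := (Submodule.ne_bot_iff _).mp hk
  refine ⟨p.1, p.2, natDegree_pair _, natDegree_pair _, ?_, ?_⟩
  · by_contra h
    push Not at h
    exact hp0 (Prod.ext (Subtype.ext h.1) (Subtype.ext h.2))
  · have h := LinearMap.mem_ker.mp hp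
    rw [hf, AdjoinRoot.mk_eq_zero] at h
    exact h

/-- Uniqueness of small solutions. -/
theorem uniq {A B S R : K[X]} (hAB : IsCoprime A B) (hA : A.natDegree = 4) (hR : R.natDegree ≤ 3)
    (hA0 : A ≠ 0) (h : A * S = B * R) : S = 0 ∧ R = 0 := by
  have h1 : A ∣ B * R := ⟨S, h.symm⟩
  have h2 : A ∣ R := hAB.dvd_of_dvd_mul_left h1
  have hR0 : R = 0 := by
    by_contra hne
    have := natDegree_le_of_dvd h2 hne
    omega
  refine ⟨?_, hR0⟩
  rw [hR0, mul_zero] at h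
  exact (mul_eq_zero.mp h).resolve_left hA0

theorem root_factor {P : K[X]} {a : K} (h : P.eval a = 0) : ∃ Q, P = (X - C a) * Q ∧
    ∀ n, P.natDegree ≤ n + 1 → Q.natDegree ≤ n := by
  obtain ⟨Q, hQ⟩ := dvd_iff_isRoot.mpr (show P.IsRoot a from h)
  refine ⟨Q, hQ, fun n hn => ?_⟩
  by_cases hQ0 : Q = 0
  · rw [hQ0]; simp
  · have h1 : P.natDegree = (X - C a).natDegree + Q.natDegree := by
      rw [hQ]
      exact natDegree_mul (X_sub_C_ne_zero a) hQ0
    rw [natDegree_X_sub_C] at h1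
    omega

end Pool.Agent.Helper62.UG
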