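import Pool.Agent.Helper62.UG.Gen

/-!
Elements congruent to one modulo all but one of the linear factors.
-/

set_option autoImplicit false

namespace Pool.Agent.Helper62.UG

open Module Polynomial

variable {K : Type*} [Field K]

/-- The data of a linear factor `X - a₁` of `f`, of degree nine, and two auxiliary points. -/
structure Dat (f f1 : K[X]) (a1 t t' : K) : Prop where
  hf : f = (X - C a1) * f1
  hd : f1.natDegree = 8
  h1 : f1.eval a1 ≠ 0
  ht : f.eval t ≠ 0
  ht' : f.eval t' ≠ 0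
  hne : t ≠ t'

/-- `μ` is bad for the root `a`. -/
def Bad (f1 : K[X]) (a1 t t' a μ : K) : Prop :=
  ∃ f2 S R : K[X], f1 = (X - C a) * f2 ∧ S.natDegree ≤ 3 ∧ R.natDegree ≤ 3 ∧ (S ≠ 0 ∨ R ≠ 0) ∧
    f2 ∣ (X - C t) ^ 4 * S - (X - C t') ^ 4 * R ∧
    ((X - C t) ^ 4 + C μ * f1).eval a1 * S.eval a1 = ((X - C t') ^ 4).eval a1 * R.eval a1

theorem coprime_pow {t t' : K} (hne : t ≠ t') :
    IsCoprime ((X - C t) ^ 4 : K[X]) ((X - C t') ^ 4) :=
  (isCoprime_X_sub_C_of_isUnit_sub (sub_ne_zero.mpr hne).isUnit).pow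

theorem deg_pow (t : K) : ((X - C t) ^ 4 : K[X]).natDegree = 4 := by
  rw [natDegree_pow, natDegree_X_sub_C]

theorem pow_ne (t : K) : ((X - C t) ^ 4 : K[X]) ≠ 0 := pow_ne_zero _ (X_sub_C_ne_zero t)

theorem deg_comb {A B S R : K[X]} (hA : A.natDegree ≤ 4) (hB : B.natDegree ≤ 4)
    (hS : S.natDegree ≤ 3) (hR : R.natDegree ≤ 3) : (A * S - B * R).natDegree ≤ 7 := by
  refine (natDegree_sub_le _ _).trans (max_le ?_ ?_)
  · exact (natDegree_mul_le).trans (by omega)
  · exact (natDegree_mul_le).trans (by omega)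

theorem eval_sub_pow {a t : K} (h : a ≠ t) : ((X - C t) ^ 4 : K[X]).eval a ≠ 0 := by
  rw [eval_pow, eval_sub, eval_X, eval_C]
  exact pow_ne_zero _ (sub_ne_zero.mpr h)

theorem Dat.f1_ne {f f1 : K[X]} {a1 t t' : K} (H : Dat f f1 a1 t t') : f1 ≠ 0 := by
  rintro rfl
  have := H.hd
  simp at this

theorem Dat.eval_f {f f1 : K[X]} {a1 t t' : K} (H : Dat f f1 a1 t t') (a : K) :
    f.eval a = (a - a1) * f1.eval a := by
  rw [H.hf]
  simp

/-- At most one value is bad. -/
theorem bad_unique {f f1 : K[X]} {a1 t t' : K} (H : Dat f f1 a1 t t') {a : K} {μ μ' : K} (h1 : Bad f1 a1 t t' a μ) (h2 : Bad f1 a1 t t' a μ') :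
    μ = μ' := by
  obtain ⟨f2, S, R, hf2, hS, hR, hne, ⟨q, hq⟩, he⟩ := h1
  obtain ⟨f2', S', R', hf2', hS', hR', hne', ⟨q', hq'⟩, he'⟩ := h2
  have h22 : f2' = f2 := by
    have := hf2.symm.trans hf2'
    exact (mul_left_cancel₀ (X_sub_C_ne_zero a) this).symm
  subst h22
  have hf20 : f2' ≠ 0 := by
    rintro rfl
    exact H.f1_ne (by rw [hf2, mul_zero])
  have hd2 : f2'.natDegree = 7 := by
    have h3 : f1.natDegree = (X - C a).natDegree + f2'.natDegree := by
      rw [hf2]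
      exact natDegree_mul (X_sub_C_ne_zero a) hf20
    rw [natDegree_X_sub_C, H.hd] at h3
    omega
  have hta : a1 ≠ t := by
    rintro rfl
    exact H.ht (by rw [H.eval_f, sub_self, zero_mul])
  have hta' : a1 ≠ t' := by
    rintro rfl
    exact H.ht' (by rw [H.eval_f, sub_self, zero_mul])
  have hconst : ∀ (q S R : K[X]), S.natDegree ≤ 3 → R.natDegree ≤ 3 → (S ≠ 0 ∨ R ≠ 0) →
      (X - C t) ^ 4 * S - (X - C t') ^ 4 * R = f2' * q → ∃ κ : K, κ ≠ 0 ∧ q = C κ := by
    intro q S R hS hR hne hq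
    have hq0 : q ≠ 0 := by
      rintro rfl
      rw [mul_zero, sub_eq_zero] at hq
      obtain ⟨hs, hr⟩ := uniq (coprime_pow H.hne) (deg_pow t) hR (pow_ne t) hq
      rcases hne with h | h
      · exact h hs
      · exact h hr
    have hdq : q.natDegree = 0 := by
      have h3 := natDegree_mul hf20 hq0
      rw [← hq, hd2] at h3
      have h4 := deg_comb (deg_pow t).le (deg_pow t').le hS hR
      omega
    refine ⟨q.coeff 0, ?_, eq_C_of_natDegree_eq_zero hdq⟩
    intro h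
    apply hq0
    rw [eq_C_of_natDegree_eq_zero hdq, h, C_0]
  obtain ⟨κ, hκ, rfl⟩ := hconst q S R hS hR hne hq
  obtain ⟨κ', hκ', rfl⟩ := hconst q' S' R' hS' hR' hne' hq'
  -- proportional solutions
  have hlin : (X - C t) ^ 4 * (C κ' * S - C κ * S') = (X - C t') ^ 4 * (C κ' * R - C κ * R') := by
    linear_combination C κ' * hq - C κ * hq'
  have hdR : (C κ' * R - C κ * R').natDegree ≤ 3 := by
    refine (natDegree_sub_le _ _).trans (max_le ?_ ?_)
    · exact (natDegree_C_mul_le _ _).trans hR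
    · exact (natDegree_C_mul_le _ _).trans hR'
  obtain ⟨hs, hr⟩ := uniq (coprime_pow H.hne) (deg_pow t) hdR (pow_ne t) hlin
  have hs' := congrArg (eval a1) hs
  have hr' := congrArg (eval a1) hr
  have hq1 := congrArg (eval a1) hq
  simp only [eval_sub, eval_mul, eval_C, eval_zero, eval_pow, eval_X, eval_add] at hs' hr' hq1 he he'
  have hf1a : f1.eval a1 = (a1 - a) * f2'.eval a1 := by
    rw [hf2]
    simp
  have hf2a : f2'.eval a1 ≠ 0 := by
    intro h
    apply H.h1
    rw [hf1a, h, mul_zero]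
  have hSa : S.eval a1 ≠ 0 := by
    intro h
    rw [h, mul_zero] at he
    have h5 : R.eval a1 = 0 := by
      rcases mul_eq_zero.mp he.symm with h6 | h6
      · exact absurd (eq_of_sub_eq_zero (eq_zero_of_pow_eq_zero h6)) hta'
      · exact h6
    rw [h, h5, mul_zero, mul_zero, sub_zero] at hq1
    exact (mul_ne_zero hf2a hκ) hq1.symm
  have hfin : (μ - μ') * (κ' * f1.eval a1 * S.eval a1) = 0 := by
    linear_combination κ' * he - κ * he' + ((a1 - t) ^ 4 + μ' * f1.eval a1) * (-hs')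
      + (a1 - t') ^ 4 * hr'
  rcases mul_eq_zero.mp hfin with h | h
  · exact sub_eq_zero.mp h
  · exact absurd h (mul_ne_zero (mul_ne_zero hκ' H.h1) hSa)

/-- Good values give elements of the group. -/
theorem good (hr : ∀ d : ℕ, 1 ≤ d → d ≤ 4 → Helper65.PAC.Rt K d) {f f1 : K[X]} {a1 t t' : K}
    (H : Dat f f1 a1 t t') {μ : K} (hμ : ((X - C t) ^ 4 + C μ * f1).eval a1 ≠ 0)
    (hg : ∀ a, a ≠ a1 → f1.eval a = 0 → ¬ Bad f1 a1 t t' a μ) :
    Gen f ((X - C t) ^ 4 + C μ * f1) := by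
  have hf0 : f ≠ 0 := by
    rw [H.hf]
    exact mul_ne_zero (X_sub_C_ne_zero a1) H.f1_ne
  have hfd : f.natDegree ≤ 9 := by
    rw [H.hf, natDegree_mul (X_sub_C_ne_zero a1) H.f1_ne, natDegree_X_sub_C, H.hd]
  obtain ⟨S, R, hS, hR, hne, hdvd⟩ := pade f ((X - C t) ^ 4 + C μ * f1) ((X - C t') ^ 4) hf0 hfd
  have hB : ∀ a, f.eval a = 0 → ((X - C t') ^ 4 : K[X]).eval a ≠ 0 := by
    intro a ha
    apply eval_sub_pow
    rintro rfl
    exact H.ht' ha
  have hA : ∀ a, f.eval a = 0 → ((X - C t) ^ 4 : K[X]).eval a ≠ 0 := by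
    intro a ha
    apply eval_sub_pow
    rintro rfl
    exact H.ht ha
  have hev : ∀ a, f.eval a = 0 → ((X - C t) ^ 4 + C μ * f1).eval a * S.eval a =
      ((X - C t') ^ 4).eval a * R.eval a := by
    intro a ha
    obtain ⟨q, hq⟩ := hdvd
    have h := congrArg (eval a) hq
    rw [eval_sub, eval_mul, eval_mul, eval_mul, ha, zero_mul, sub_eq_zero] at h
    exact h
  have hSne : ∀ a, f.eval a = 0 → S.eval a ≠ 0 := by
    intro a ha hSa
    have hRa : R.eval a = 0 := by
      have h := hev a ha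
      rw [hSa, mul_zero] at h
      exact (mul_eq_zero.mp h.symm).resolve_left (hB a ha)
    obtain ⟨S', rfl, hS'⟩ := root_factor hSa
    obtain ⟨R', rfl, hR'⟩ := root_factor hRa
    have hS3 := hS' 3 hS
    have hR3 := hR' 3 hR
    have hne' : S' ≠ 0 ∨ R' ≠ 0 := by
      rcases hne with h | h
      · exact Or.inl (right_ne_zero_of_mul h)
      · exact Or.inr (right_ne_zero_of_mul h)
    have hfac : ((X - C t) ^ 4 + C μ * f1) * ((X - C a) * S') - (X - C t') ^ 4 * ((X - C a) * R') =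
        (X - C a) * (((X - C t) ^ 4 + C μ * f1) * S' - (X - C t') ^ 4 * R') := by ring
    rw [hfac] at hdvd
    by_cases haa : a = a1
    · rw [haa, H.hf] at hdvd
      have h3 : f1 ∣ ((X - C t) ^ 4 + C μ * f1) * S' - (X - C t') ^ 4 * R' :=
        (mul_dvd_mul_iff_left (X_sub_C_ne_zero a1)).mp hdvd
      have h4 : f1 ∣ (X - C t) ^ 4 * S' - (X - C t') ^ 4 * R' := by
        have h5 : (X - C t) ^ 4 * S' - (X - C t') ^ 4 * R' =
            (((X - C t) ^ 4 + C μ * f1) * S' - (X - C t') ^ 4 * R') - f1 * (C μ * S') := by ring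
        rw [h5]
        exact dvd_sub h3 (dvd_mul_right _ _)
      have h6 : (X - C t) ^ 4 * S' - (X - C t') ^ 4 * R' = 0 := by
        by_contra h7
        have h8 := natDegree_le_of_dvd h4 h7
        have h9 := deg_comb (deg_pow t).le (deg_pow t').le hS3 hR3
        rw [H.hd] at h8
        omega
      obtain ⟨hs, hr⟩ := uniq (coprime_pow H.hne) (deg_pow t) hR3 (pow_ne t) (sub_eq_zero.mp h6)
      rcases hne' with h | h
      · exact h hs
      · exact h hr
    · have hf1a : f1.eval a = 0 := by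
        have h := H.eval_f a
        rw [ha] at h
        exact (mul_eq_zero.mp h.symm).resolve_left (sub_ne_zero.mpr haa)
      obtain ⟨f2, hf2, -⟩ := root_factor hf1a
      apply hg a haa hf1a
      have h3 : (X - C a1) * f2 ∣ ((X - C t) ^ 4 + C μ * f1) * S' - (X - C t') ^ 4 * R' := by
        have h4 : f = (X - C a) * ((X - C a1) * f2) := by
          rw [H.hf, hf2]
          ring
        rw [h4] at hdvd
        exact (mul_dvd_mul_iff_left (X_sub_C_ne_zero a)).mp hdvd
      refine ⟨f2, S', R', hf2, hS3, hR3, hne', ?_, ?_⟩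
      · have h5 : (X - C t) ^ 4 * S' - (X - C t') ^ 4 * R' =
            (((X - C t) ^ 4 + C μ * f1) * S' - (X - C t') ^ 4 * R') - f2 * ((X - C a) * C μ * S') := by
          rw [hf2]
          ring
        rw [h5]
        exact dvd_sub ((dvd_mul_left _ _).trans h3) (dvd_mul_right _ _)
      · obtain ⟨q, hq⟩ := h3
        have h := congrArg (eval a1) hq
        rw [eval_sub, eval_mul, eval_mul, eval_mul, eval_mul, eval_sub, eval_X, eval_C, sub_self,
          zero_mul, zero_mul, sub_eq_zero] at h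
        exact h
  have hfa1 : f.eval a1 = 0 := by rw [H.eval_f, sub_self, zero_mul]
  have hRne : ∀ a, f.eval a = 0 → R.eval a ≠ 0 := by
    intro a ha hRa
    have h := hev a ha
    rw [hRa, mul_zero] at h
    rcases mul_eq_zero.mp h with h1 | h1
    · by_cases haa : a = a1
      · rw [haa] at h1
        exact hμ h1
      · have hf1a : f1.eval a = 0 := by
          have h := H.eval_f a
          rw [ha] at h
          exact (mul_eq_zero.mp h.symm).resolve_left (sub_ne_zero.mpr haa)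
        rw [eval_add, eval_mul, hf1a, mul_zero, add_zero] at h1
        exact hA a ha h1
    · exact hSne a ha h1
  have hS0 : S ≠ 0 := by
    rintro rfl
    exact hSne a1 hfa1 (by simp)
  have hR0 : R ≠ 0 := by
    rintro rfl
    exact hRne a1 hfa1 (by simp)
  have g1 := gen_small hr hS0 hS hSne
  have g2 := gen_small hr hR0 hR hRne
  have g3 := gen_pow H.ht' 4
  refine Gen.quot g1 (g3.mul g2) ?_
  have h5 : S * ((X - C t) ^ 4 + C μ * f1) - (X - C t') ^ 4 * R =
      ((X - C t) ^ 4 + C μ * f1) * S - (X - C t') ^ 4 * R := by ring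
  rw [h5]
  exact hdvd

/-- Elements which are one modulo `f1`. -/
theorem local_unit [Infinite K] (hr : ∀ d : ℕ, 1 ≤ d → d ≤ 4 → Helper65.PAC.Rt K d)
    {f f1 : K[X]} {a1 t t' : K} (H : Dat f f1 a1 t t') {u : K[X]} (hu : f1 ∣ u - 1)
    (hu1 : u.eval a1 ≠ 0) : Gen f u := by
  classical
  have hfin : {μ : K | ((X - C t) ^ 4 + C μ * f1).eval a1 = 0 ∨
      ∃ a, a ≠ a1 ∧ f1.eval a = 0 ∧ Bad f1 a1 t t' a μ}.Finite := by
    have h1 : {μ : K | ((X - C t) ^ 4 + C μ * f1).eval a1 = 0}.Finite := by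
      refine Set.Subsingleton.finite ?_
      intro μ hμ μ' hμ'
      have e1 : ((X - C t) ^ 4 + C μ * f1).eval a1 = 0 := hμ
      have e2 : ((X - C t) ^ 4 + C μ' * f1).eval a1 = 0 := hμ'
      rw [eval_add, eval_mul, eval_C] at e1 e2
      have e3 : (μ - μ') * f1.eval a1 = 0 := by linear_combination e1 - e2
      exact sub_eq_zero.mp ((mul_eq_zero.mp e3).resolve_right H.h1)
    have h2 : (⋃ a ∈ (f1.roots.toFinset : Set K), {μ : K | a ≠ a1 ∧ f1.eval a = 0 ∧
        Bad f1 a1 t t' a μ}).Finite := by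
      refine Set.Finite.biUnion (Finset.finite_toSet _) fun a _ => ?_
      refine Set.Subsingleton.finite ?_
      rintro μ ⟨_, _, hb⟩ μ' ⟨_, _, hb'⟩
      exact bad_unique H hb hb'
    refine (h1.union h2).subset ?_
    rintro μ (h | ⟨a, ha, hfa, hb⟩)
    · exact Or.inl h
    · refine Or.inr ?_
      rw [Set.mem_iUnion₂]
      refine ⟨a, ?_, ha, hfa, hb⟩
      rw [Finset.mem_coe, Multiset.mem_toFinset, mem_roots H.f1_ne]
      exact hfa
  obtain ⟨Bd, hBd⟩ : ∃ Bd : Set K, Bd = {μ : K | ((X - C t) ^ 4 + C μ * f1).eval a1 = 0 ∨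
      ∃ a, a ≠ a1 ∧ f1.eval a = 0 ∧ Bad f1 a1 t t' a μ} := ⟨_, rfl⟩
  rw [← hBd] at hfin
  -- the affine map
  obtain ⟨φ, hφ⟩ : ∃ φ : K → K, ∀ μ, φ μ =
      (u.eval a1 * (((X - C t) ^ 4 : K[X]).eval a1 + μ * f1.eval a1) - ((X - C t) ^ 4 : K[X]).eval a1)
        / f1.eval a1 := ⟨_, fun _ => rfl⟩
  have hinj : Function.Injective φ := by
    intro μ μ' h
    rw [hφ, hφ, div_left_inj' H.h1] at h
    have e3 : (μ - μ') * (u.eval a1 * f1.eval a1) = 0 := by linear_combination h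
    exact sub_eq_zero.mp ((mul_eq_zero.mp e3).resolve_right (mul_ne_zero hu1 H.h1))
  have hfin2 : (φ ⁻¹' Bd).Finite := hfin.preimage hinj.injOn
  obtain ⟨μ, hμ⟩ := (hfin.union hfin2).exists_notMem
  have hμ1 : μ ∉ Bd := fun h => hμ (Or.inl h)
  have hμ2 : φ μ ∉ Bd := fun h => hμ (Or.inr h)
  have hgood : ∀ ν, ν ∉ Bd → Gen f ((X - C t) ^ 4 + C ν * f1) := by
    intro ν hν
    rw [hBd] at hν
    refine good hr H (fun h => hν (Or.inl h)) fun a ha hfa hb => hν (Or.inr ⟨a, ha, hfa, hb⟩)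
  refine Gen.quot (hgood μ hμ1) (hgood (φ μ) hμ2) ?_
  rw [H.hf]
  refine IsCoprime.mul_dvd ?_ ?_ ?_
  · refine (Polynomial.irreducible_X_sub_C a1).coprime_iff_not_dvd.mpr ?_
    intro h
    exact H.h1 (dvd_iff_isRoot.mp h)
  · rw [dvd_iff_isRoot, IsRoot.def]
    rw [eval_sub, eval_mul, eval_add, eval_mul, eval_add, eval_mul, eval_C, eval_C, hφ]
    have h1 := H.h1
    field_simp
    ring
  · have h5 : ((X - C t) ^ 4 + C μ * f1) * u - ((X - C t) ^ 4 + C (φ μ) * f1) =
        ((X - C t) ^ 4 + C μ * f1) * (u - 1) + f1 * (C μ - C (φ μ)) := by ring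
    rw [h5]
    exact dvd_add (hu.mul_left _) (dvd_mul_right _ _)

end Pool.Agent.Helper62.UG
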