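import Pool.Agent.Helper65.PAC.Roots

/-!
Multiplicative generators of extensions of degree at most nine of a field in which every
polynomial of degree one to four has a root (Thue's lemma for polynomials).
-/

set_option autoImplicit false

namespace Pool.Agent.Helper62.UG

open Module Polynomial

variable {K : Type*} [Field K]

/-- Polynomials of degree at most four are products of linear factors. -/
theorem split_four (hr : ∀ d : ℕ, 1 ≤ d → d ≤ 4 → Helper65.PAC.Rt K d) :
    ∀ (n : ℕ), n ≤ 4 → ∀ P : K[X], P ≠ 0 → P.natDegree ≤ n →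
      ∃ (c : K) (s : Multiset K), c ≠ 0 ∧ Multiset.card s ≤ n ∧
        P = C c * (s.map (fun a => X - C a)).prod := by
  intro n
  induction n with
  | zero =>
    intro _ P hP hd
    have h0 : P.natDegree = 0 := by omega
    refine ⟨P.coeff 0, 0, ?_, by simp, ?_⟩
    · intro h
      apply hP
      rw [eq_C_of_natDegree_eq_zero h0, h, C_0]
    · simpa using eq_C_of_natDegree_eq_zero h0
  | succ n ih =>
    intro hn P hP hd
    by_cases hd0 : P.natDegree ≤ n
    · obtain ⟨c, s, hc, hs, he⟩ := ih (by omega) P hP hd0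
      exact ⟨c, s, hc, by omega, he⟩
    have hdeg : P.natDegree = n + 1 := by omega
    have hlead : P.coeff (n + 1) ≠ 0 := by
      rw [← hdeg]
      exact leadingCoeff_ne_zero.mpr hP
    obtain ⟨a, ha⟩ := hr (n + 1) (by omega) (by omega) (fun k => P.coeff k) hlead
    have hroot : P.IsRoot a := by
      rw [IsRoot.def, eval_eq_sum_range, hdeg, ← ha]
      refine Finset.sum_congr rfl fun k _ => ?_
      ring
    obtain ⟨Q, hQ⟩ := dvd_iff_isRoot.mpr hroot
    have hQ0 : Q ≠ 0 := by
      rintro rfl
      exact hP (by rw [hQ, mul_zero])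
    have hQd : Q.natDegree ≤ n := by
      have h1 : P.natDegree = (X - C a).natDegree + Q.natDegree := by
        rw [hQ]
        exact natDegree_mul (X_sub_C_ne_zero a) hQ0
      rw [natDegree_X_sub_C] at h1
      omega
    obtain ⟨c, s, hc, hs, he⟩ := ih (by omega) Q hQ0 hQd
    refine ⟨c, a ::ₘ s, hc, by rw [Multiset.card_cons]; omega, ?_⟩
    rw [Multiset.map_cons, Multiset.prod_cons, hQ, he]
    ring

/-- Thue's lemma: a fraction with numerator and denominator of degree at most four. -/
theorem thue {L : Type*} [Field L] [Algebra K L] (θ δ : L) [FiniteDimensional K L]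
    (hL : finrank K L ≤ 9) (hinj : ∀ P : K[X], P.natDegree ≤ 4 → aeval θ P = 0 → P = 0) :
    ∃ R S : K[X], R.natDegree ≤ 4 ∧ S.natDegree ≤ 4 ∧ S ≠ 0 ∧ aeval θ S * δ = aeval θ R := by
  obtain ⟨f, hf⟩ : ∃ f : (degreeLT K 5 × degreeLT K 5) →ₗ[K] L, ∀ p : degreeLT K 5 × degreeLT K 5,
      f p = aeval θ (p.1 : K[X]) * δ - aeval θ (p.2 : K[X]) := by
    refine ⟨((LinearMap.mulRight K δ) ∘ₗ (aeval θ).toLinearMap ∘ₗ (degreeLT K 5).subtype ∘ₗ
        LinearMap.fst K _ _) - ((aeval θ).toLinearMap ∘ₗ (degreeLT K 5).subtype ∘ₗ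
        LinearMap.snd K _ _), ?_⟩
    intro p
    simp
  have hfr : finrank K L < finrank K (degreeLT K 5 × degreeLT K 5) := by
    have h5 : finrank K (degreeLT K 5) = 5 := by
      rw [(degreeLTEquiv K 5).finrank_eq]
      simp
    have : Module.Finite K (degreeLT K 5) := Module.Finite.equiv (degreeLTEquiv K 5).symm
    rw [finrank_prod, h5]
    omega
  have : Module.Finite K (degreeLT K 5) := Module.Finite.equiv (degreeLTEquiv K 5).symm
  have hk := LinearMap.ker_ne_bot_of_finrank_lt (f := f) hfr
  obtain ⟨p, hp, hp0⟩ := (Submodule.ne_bot_iff _).mp hk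
  have hd1 : ((p.1 : K[X])).natDegree ≤ 4 := by
    have h := mem_degreeLT.mp p.1.2
    by_cases h0 : (p.1 : K[X]) = 0
    · rw [h0]; simp
    · have h2 := (natDegree_lt_iff_degree_lt h0).mpr h
      omega
  have hd2 : ((p.2 : K[X])).natDegree ≤ 4 := by
    have h := mem_degreeLT.mp p.2.2
    by_cases h0 : (p.2 : K[X]) = 0
    · rw [h0]; simp
    · have h2 := (natDegree_lt_iff_degree_lt h0).mpr h
      omega
  have he : aeval θ (p.1 : K[X]) * δ = aeval θ (p.2 : K[X]) := by
    have h := LinearMap.mem_ker.mp hp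
    rw [hf] at h
    exact sub_eq_zero.mp h
  refine ⟨p.2, p.1, hd2, hd1, ?_, he⟩
  intro h0
  apply hp0
  have h1 : aeval θ (p.2 : K[X]) = 0 := by
    rw [← he, h0]
    simp
  have h2 := hinj _ hd2 h1
  exact Prod.ext (Subtype.ext h0) (Subtype.ext h2)

/-- The multiplicative group of an extension `K(θ)` of degree at most nine is generated by the
constants and the elements `θ - r`. -/
theorem units_gen (hr : ∀ d : ℕ, 1 ≤ d → d ≤ 4 → Helper65.PAC.Rt K d)
    {E : Type*} [Field E] [Algebra K E] (θ δ : E) (hint : IsIntegral K θ)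
    (hdeg : (minpoly K θ).natDegree ≤ 9)
    (hδ : δ ∈ IntermediateField.adjoin K {θ}) (hδ0 : δ ≠ 0) :
    ∃ (c : K) (r s : Multiset K), c ≠ 0 ∧ Multiset.card r ≤ 4 ∧ Multiset.card s ≤ 4 ∧
      (s.map (fun a => θ - algebraMap K E a)).prod ≠ 0 ∧
      δ * (s.map (fun a => θ - algebraMap K E a)).prod =
        algebraMap K E c * (r.map (fun a => θ - algebraMap K E a)).prod := by
  have key : ∀ s : Multiset K, aeval θ (s.map (fun a => X - C a)).prod =
      (s.map (fun a => θ - algebraMap K E a)).prod := by
    intro s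
    rw [map_multiset_prod, Multiset.map_map]
    congr 1
    refine Multiset.map_congr rfl fun a _ => ?_
    simp
  obtain ⟨R, S, hR, hS, hS0, hSR⟩ : ∃ R S : K[X], R.natDegree ≤ 4 ∧ S.natDegree ≤ 4 ∧
      aeval θ S ≠ 0 ∧ aeval θ S * δ = aeval θ R := by
    by_cases hn : (minpoly K θ).natDegree ≤ 4
    · have h1 : δ ∈ Algebra.adjoin K {θ} := by
        have h := (IntermediateField.adjoin_simple_toSubalgebra_of_isAlgebraic hint.isAlgebraic)
        rw [← h]
        exact hδ
      rw [Algebra.adjoin_singleton_eq_range_aeval] at h1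
      obtain ⟨P, hP⟩ := h1
      have hP' : aeval θ P = δ := hP
      refine ⟨P %ₘ minpoly K θ, 1, ?_, by simp, by simp, ?_⟩
      · have h2 := natDegree_modByMonic_le P (minpoly.monic hint)
        omega
      · rw [map_one, one_mul, ← hP', minpoly.aeval_modByMonic_minpoly]
    · have hfd : FiniteDimensional K (IntermediateField.adjoin K {θ}) :=
        IntermediateField.adjoin.finiteDimensional hint
      have hfr : finrank K (IntermediateField.adjoin K {θ}) ≤ 9 := by
        rw [IntermediateField.adjoin.finrank hint]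
        exact hdeg
      obtain ⟨R, S, hR, hS, hS0, he⟩ := thue (K := K)
        (IntermediateField.AdjoinSimple.gen K θ) (⟨δ, hδ⟩ : IntermediateField.adjoin K {θ}) hfr
        (by
          intro P hP h0
          by_contra hne
          have h1 : aeval θ P = 0 := by
            have h2 := congrArg (algebraMap (IntermediateField.adjoin K {θ}) E) h0
            rw [map_zero, ← aeval_algebraMap_apply,
              IntermediateField.AdjoinSimple.algebraMap_gen] at h2
            exact h2
          have h3 := minpoly.degree_le_of_ne_zero K θ hne h1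
          have h4 := natDegree_le_natDegree h3
          omega)
      have hh : ∀ Q : K[X], algebraMap (IntermediateField.adjoin K {θ}) E
          (aeval (IntermediateField.AdjoinSimple.gen K θ) Q) = aeval θ Q := by
        intro Q
        rw [← aeval_algebraMap_apply, IntermediateField.AdjoinSimple.algebraMap_gen]
      refine ⟨R, S, hR, hS, ?_, ?_⟩
      · intro h1
        have h3 := minpoly.degree_le_of_ne_zero K θ hS0 h1
        have h4 := natDegree_le_natDegree h3
        omega
      · have h5 := congrArg (algebraMap (IntermediateField.adjoin K {θ}) E) he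
        rw [map_mul, hh, hh] at h5
        exact h5
  have hS00 : S ≠ 0 := by
    rintro rfl
    simp at hS0
  have hR00 : R ≠ 0 := by
    rintro rfl
    rw [map_zero] at hSR
    exact (mul_ne_zero hS0 hδ0) hSR
  obtain ⟨c, s, hc, hcs, hes⟩ := split_four hr 4 le_rfl S hS00 hS
  obtain ⟨d, r, hd, hcr, her⟩ := split_four hr 4 le_rfl R hR00 hR
  have hcm : algebraMap K E c ≠ 0 := (_root_.map_ne_zero _).mpr hc
  refine ⟨d / c, r, s, div_ne_zero hd hc, hcr, hcs, ?_, ?_⟩
  · intro h0
    apply hS0
    rw [hes, map_mul, key, h0, mul_zero]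
  · rw [hes, her, map_mul, map_mul, key, key, aeval_C, aeval_C] at hSR
    rw [map_div₀, div_mul_eq_mul_div, eq_div_iff hcm, ← hSR]
    ring

end Pool.Agent.Helper62.UG
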